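import Mathlib

namespace Pool.Agent.X86.EC

open CategoryTheory CategoryTheory.Abelian IsLocalRing

universe u

/-- The depth of a module over a local ring: the supremum of the lengths of the regular
sequences in the maximal ideal; the zero module has depth `∞`. -/
noncomputable def depth (A : Type u) [CommRing A] [IsLocalRing A] (N : Type u) [AddCommGroup N]
    [Module A N] : ℕ∞ :=
  open Classical in
  if Subsingleton N then ⊤ else
    ⨆ rs : {rs : List A // (∀ r ∈ rs, r ∈ maximalIdeal A) ∧ RingTheory.Sequence.IsRegular N rs},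
      (rs.1.length : ℕ∞)

variable {A : Type u} [CommRing A] [IsLocalRing A]

/-- The residue field as a module. -/
noncomputable abbrev kk (A : Type u) [CommRing A] [IsLocalRing A] : ModuleCat.{u} A :=
  ModuleCat.of A (Shrink.{u} (A ⧸ maximalIdeal A))

/-- Vanishing of `Ext` below `n`. -/
def V (n : ℕ) (N : ModuleCat.{u} A) : Prop := ∀ i < n, Subsingleton (Ext (kk A) N i)

theorem V_mono {m n : ℕ} (h : m ≤ n) {N : ModuleCat.{u} A} (hN : V n N) : V m N :=
  fun i hi => hN i (lt_of_lt_of_le hi h)

theorem V_of_retract {n : ℕ} {N N' : ModuleCat.{u} A} (i : N ⟶ N') (r : N' ⟶ N)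
    (hir : i ≫ r = 𝟙 N) (h : V n N') : V n N := by
  intro j hj
  have := h j hj
  refine ⟨fun x y => ?_⟩
  have key : ∀ x : Ext (kk A) N j, x = (x.comp (Ext.mk₀ i) (add_zero j)).comp (Ext.mk₀ r)
      (add_zero j) := by
    intro x
    rw [Ext.comp_assoc_of_third_deg_zero, Ext.mk₀_comp_mk₀, hir, Ext.comp_mk₀_id]
  rw [key x, key y, Subsingleton.elim (x.comp (Ext.mk₀ i) (add_zero j))
    (y.comp (Ext.mk₀ i) (add_zero j))]

theorem V_of_subsingleton (n : ℕ) (N : ModuleCat.{u} A) [Subsingleton N] : V n N := by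
  intro j hj
  refine ⟨fun x y => ?_⟩
  have key : ∀ x : Ext (kk A) N j, x = 0 := by
    intro x
    rw [← Ext.comp_mk₀_id x]
    have : 𝟙 N = 0 := by
      ext y
      exact Subsingleton.elim _ _
    rw [this, Ext.mk₀_zero, Ext.comp_zero]
  rw [key x, key y]

theorem V_mid {n : ℕ} {S : ShortComplex (ModuleCat.{u} A)} (hS : S.ShortExact)
    (h1 : V n S.X₁) (h3 : V n S.X₃) : V n S.X₂ := by
  intro j hj
  have a1 := h1 j hj
  have a3 := h3 j hj
  have key : ∀ x : Ext (kk A) S.X₂ j, x = 0 := by
    intro x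
    obtain ⟨y, hy⟩ := Ext.covariant_sequence_exact₂ (kk A) hS x (Subsingleton.elim _ _)
    rw [← hy, Subsingleton.elim y 0, Ext.zero_comp]
  exact ⟨fun x y => by rw [key x, key y]⟩

theorem V_left {n : ℕ} {S : ShortComplex (ModuleCat.{u} A)} (hS : S.ShortExact)
    (h2 : V n S.X₂) (h3 : V n S.X₃) : V n S.X₁ := by
  intro j hj
  have a2 := h2 j hj
  have key : ∀ x : Ext (kk A) S.X₁ j, x = 0 := by
    intro x
    cases j with
    | zero =>
      have := hS.mono_f
      apply Ext.postcomp_mk₀_injective_of_mono (kk A) S.f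
      exact Subsingleton.elim _ _
    | succ j =>
      have a3 := h3 j (by omega)
      obtain ⟨y, hy⟩ := Ext.covariant_sequence_exact₁ (kk A) hS x (Subsingleton.elim _ _) rfl
      rw [← hy, Subsingleton.elim y 0, Ext.zero_comp]
  exact ⟨fun x y => by rw [key x, key y]⟩

theorem V_pi (n k : ℕ) (h : V n (ModuleCat.of A A)) : V n (ModuleCat.of A (Fin k → A)) := by
  intro j hj
  have a := h j hj
  have key : ∀ x : Ext (kk A) (ModuleCat.of A (Fin k → A)) j, x = 0 := by
    intro x
    have hid : 𝟙 (ModuleCat.of A (Fin k → A)) = ∑ t : Fin k,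
        ModuleCat.ofHom (LinearMap.proj (R := A) (φ := fun _ : Fin k => A) t) ≫
          ModuleCat.ofHom (LinearMap.single A (fun _ : Fin k => A) t) := by
      ext y s
      simp [ModuleCat.hom_sum, Pi.single_apply]
    rw [← Ext.comp_mk₀_id x, hid, Ext.mk₀_sum, Ext.comp_sum]
    apply Finset.sum_eq_zero
    intro t _
    rw [← Ext.mk₀_comp_mk₀, ← Ext.comp_assoc_of_third_deg_zero,
      Subsingleton.elim (x.comp (Ext.mk₀ (ModuleCat.ofHom (LinearMap.proj (R := A)
        (φ := fun _ : Fin k => A) t))) (add_zero j)) 0, Ext.zero_comp]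
  exact ⟨fun x y => by rw [key x, key y]⟩

theorem smul_top_lt (N : Type u) [AddCommGroup N] [Module A N] [Module.Finite A N]
    [Nontrivial N] : maximalIdeal A • (⊤ : Submodule A N) < ⊤ := by
  rw [lt_top_iff_ne_top]
  intro h
  have := Submodule.eq_bot_of_le_smul_of_le_jacobson_bot (maximalIdeal A) (⊤ : Submodule A N)
    Module.Finite.fg_top h.ge (IsLocalRing.maximalIdeal_le_jacobson _)
  exact bot_ne_top this.symm

theorem V_iff [IsNoetherianRing A] (n : ℕ) (N : Type u) [AddCommGroup N] [Module A N]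
    [Module.Finite A N] [Nontrivial N] : V n (ModuleCat.of A N) ↔
    ∃ rs : List A, rs.length = n ∧ (∀ r ∈ rs, r ∈ maximalIdeal A) ∧
      RingTheory.Sequence.IsRegular N rs :=
  (ModuleCat.exists_isRegular_tfae (maximalIdeal A) n (ModuleCat.of A N) (smul_top_lt N)).out 1 3

theorem le_depth_iff [IsNoetherianRing A] (n : ℕ) (N : Type u) [AddCommGroup N] [Module A N]
    [Module.Finite A N] : (n : ℕ∞) ≤ depth A N ↔ V n (ModuleCat.of A N) := by
  rcases subsingleton_or_nontrivial N with hN | hN
  · rw [depth, if_pos hN]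
    exact ⟨fun _ => by
      have : Subsingleton (ModuleCat.of A N) := hN
      exact V_of_subsingleton n _, fun _ => le_top⟩
  · rw [depth, if_neg (not_subsingleton_iff_nontrivial.2 hN)]
    constructor
    · intro h
      rw [V_iff]
      by_contra hcon
      have hall : ∀ rs : {rs : List A // (∀ r ∈ rs, r ∈ maximalIdeal A) ∧
          RingTheory.Sequence.IsRegular N rs}, rs.1.length < n := by
        rintro ⟨rs, h1, h2⟩
        by_contra h3
        apply hcon
        rw [← V_iff]
        exact V_mono (not_lt.1 h3) ((V_iff _ N).2 ⟨rs, rfl, h1, h2⟩)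
      rcases Nat.eq_zero_or_pos n with h0 | h0
      · subst h0
        apply hcon
        rw [← V_iff]
        intro i hi
        exact absurd hi (Nat.not_lt_zero _)
      · have : (⨆ rs : {rs : List A // (∀ r ∈ rs, r ∈ maximalIdeal A) ∧
          RingTheory.Sequence.IsRegular N rs}, (rs.1.length : ℕ∞)) ≤ ((n - 1 : ℕ) : ℕ∞) := by
          apply iSup_le
          intro rs
          have := hall rs
          exact_mod_cast (by omega : rs.1.length ≤ n - 1)
        have h4 := h.trans this
        have h5 : n ≤ n - 1 := by exact_mod_cast h4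
        omega
    · intro h
      rw [V_iff] at h
      obtain ⟨rs, h1, h2, h3⟩ := h
      rw [← h1]
      exact le_iSup (fun rs : {rs : List A // (∀ r ∈ rs, r ∈ maximalIdeal A) ∧
        RingTheory.Sequence.IsRegular N rs} => (rs.1.length : ℕ∞)) ⟨rs, h2, h3⟩

/-- `depth A ≤ depth N` in terms of `Ext`. -/
theorem depth_le_iff [IsNoetherianRing A] (N : Type u) [AddCommGroup N] [Module A N]
    [Module.Finite A N] : depth A A ≤ depth A N ↔
      ∀ n, V n (ModuleCat.of A A) → V n (ModuleCat.of A N) := by
  constructor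
  · intro h n hn
    rw [← le_depth_iff] at hn ⊢
    exact hn.trans h
  · intro h
    rw [← ENat.forall_natCast_le_iff_le]
    intro n hn
    rw [le_depth_iff] at hn ⊢
    exact h n hn

end Pool.Agent.X86.EC
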