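import Mathlib
import Pool.Agent.X86.EC.Depth

namespace Pool.Agent.X86.EC

open CategoryTheory CategoryTheory.Abelian IsLocalRing Function

universe u

/-- Short exact sequences of modules as short complexes. -/
theorem shortExact_of {A : Type u} [CommRing A] {X Y Z : Type u} [AddCommGroup X] [Module A X]
    [AddCommGroup Y] [Module A Y] [AddCommGroup Z] [Module A Z] (f : X →ₗ[A] Y) (g : Y →ₗ[A] Z)
    (hf : Injective f) (hfg : Exact f g) (hg : Surjective g) :
    ∃ (w : ModuleCat.ofHom f ≫ ModuleCat.ofHom g = 0),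
      (ShortComplex.mk (ModuleCat.ofHom f) (ModuleCat.ofHom g) w).ShortExact := by
  have w : ModuleCat.ofHom f ≫ ModuleCat.ofHom g = 0 := by
    ext x
    exact hfg.apply_apply_eq_zero x
  refine ⟨w, ?_⟩
  exact
    { exact := (ShortComplex.ShortExact.moduleCat_exact_iff_function_exact _).2 hfg
      mono_f := (ModuleCat.mono_iff_injective _).2 hf
      epi_g := (ModuleCat.epi_iff_surjective _).2 hg }

section loc

variable {A : Type u} [CommRing A] [IsLocalRing A]

theorem V_free (n : ℕ) (N : Type u) [AddCommGroup N] [Module A N] [Module.Finite A N]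
    [Module.Free A N] (h : V n (ModuleCat.of A A)) : V n (ModuleCat.of A N) := by
  let e := (Module.finBasis A N).equivFun
  refine V_of_retract (ModuleCat.ofHom e.toLinearMap) (ModuleCat.ofHom e.symm.toLinearMap) ?_
    (V_pi n _ h)
  ext x
  simp

end loc

variable (R : Type u) [CommRing R]

/-- The subcategory `C(R)`. -/
structure InC (M : Type u) [AddCommGroup M] [Module R M] : Prop where
  fin : Module.Finite R M
  depth_le : ∀ (p : Ideal R) [p.IsPrime],
    depth (Localization.AtPrime p) (Localization.AtPrime p) ≤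
      depth (Localization.AtPrime p) (LocalizedModule p.primeCompl M)

/-- The subcategory `C_{V(I)}(R)`. -/
structure InCV (I : Ideal R) (M : Type u) [AddCommGroup M] [Module R M] : Prop extends
    InC R M where
  free : ∀ (p : Ideal R) [p.IsPrime], ¬ I ≤ p →
    Module.Free (Localization.AtPrime p) (LocalizedModule p.primeCompl M)

variable {R} [IsNoetherianRing R] {I : Ideal R}

theorem inC_iff {M : Type u} [AddCommGroup M] [Module R M] : InC R M ↔ Module.Finite R M ∧
    ∀ (p : Ideal R) [p.IsPrime] (n : ℕ), V n (ModuleCat.of (Localization.AtPrime p)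
      (Localization.AtPrime p)) → V n (ModuleCat.of (Localization.AtPrime p)
      (LocalizedModule p.primeCompl M)) := by
  constructor
  · rintro ⟨h1, h2⟩
    refine ⟨h1, fun p _ => ?_⟩
    have : IsNoetherianRing (Localization.AtPrime p) :=
      IsLocalization.isNoetherianRing p.primeCompl _ inferInstance
    exact (depth_le_iff _).1 (h2 p)
  · rintro ⟨h1, h2⟩
    refine ⟨h1, fun p _ => ?_⟩
    have : IsNoetherianRing (Localization.AtPrime p) :=
      IsLocalization.isNoetherianRing p.primeCompl _ inferInstance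
    exact (depth_le_iff _).2 (h2 p)

section closure

variable {X Y Z : Type u} [AddCommGroup X] [Module R X] [AddCommGroup Y] [Module R Y]
  [AddCommGroup Z] [Module R Z]

theorem InC.mid (f : X →ₗ[R] Y) (g : Y →ₗ[R] Z) (hf : Injective f) (hfg : Exact f g)
    (hg : Surjective g) (hX : InC R X) (hZ : InC R Z) : InC R Y := by
  rw [inC_iff] at hX hZ ⊢
  obtain ⟨hX1, hX2⟩ := hX
  obtain ⟨hZ1, hZ2⟩ := hZ
  have hY : IsNoetherian R Y := by
    have : IsNoetherian R X := inferInstance
    have : IsNoetherian R Z := inferInstance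
    exact isNoetherian_of_range_eq_ker f g (LinearMap.exact_iff.1 hfg).symm
  refine ⟨inferInstance, fun p _ n hn => ?_⟩
  obtain ⟨w, hS⟩ := shortExact_of (LocalizedModule.map p.primeCompl f)
    (LocalizedModule.map p.primeCompl g) (LocalizedModule.map_injective _ f hf)
    (LocalizedModule.map_exact p.primeCompl f g hfg) (LocalizedModule.map_surjective _ g hg)
  exact V_mid hS (hX2 p n hn) (hZ2 p n hn)

theorem InC.left (f : X →ₗ[R] Y) (g : Y →ₗ[R] Z) (hf : Injective f) (hfg : Exact f g)
    (hg : Surjective g) (hY : InC R Y) (hZ : InC R Z) : InC R X := by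
  rw [inC_iff] at hY hZ ⊢
  obtain ⟨hY1, hY2⟩ := hY
  obtain ⟨hZ1, hZ2⟩ := hZ
  have hX : Module.Finite R X := Module.Finite.of_injective f hf
  refine ⟨inferInstance, fun p _ n hn => ?_⟩
  obtain ⟨w, hS⟩ := shortExact_of (LocalizedModule.map p.primeCompl f)
    (LocalizedModule.map p.primeCompl g) (LocalizedModule.map_injective _ f hf)
    (LocalizedModule.map_exact p.primeCompl f g hfg) (LocalizedModule.map_surjective _ g hg)
  exact V_left hS (hY2 p n hn) (hZ2 p n hn)

theorem map_comp_map (S : Submonoid R) (f : X →ₗ[R] Y) (g : Y →ₗ[R] Z) :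
    LocalizedModule.map S g ∘ₗ LocalizedModule.map S f = LocalizedModule.map S (g ∘ₗ f) := by
  ext x
  induction x using LocalizedModule.induction_on with
  | h m s => simp

theorem InC.retract (i : X →ₗ[R] Y) (r : Y →ₗ[R] X) (hir : r ∘ₗ i = LinearMap.id)
    (hY : InC R Y) : InC R X := by
  rw [inC_iff] at hY ⊢
  obtain ⟨hY1, hY2⟩ := hY
  have hX : Module.Finite R X := Module.Finite.of_surjective r
    (fun x => ⟨i x, LinearMap.congr_fun hir x⟩)
  refine ⟨hX, fun p _ n hn => ?_⟩
  refine V_of_retract (ModuleCat.ofHom (LocalizedModule.map p.primeCompl i))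
    (ModuleCat.ofHom (LocalizedModule.map p.primeCompl r)) ?_ (hY2 p n hn)
  rw [← ModuleCat.ofHom_comp, map_comp_map, hir, LocalizedModule.map_id]
  rfl

theorem InC.zero [Subsingleton X] : InC R X := by
  rw [inC_iff]
  refine ⟨inferInstance, fun p _ n _ => ?_⟩
  have : Subsingleton (ModuleCat.of (Localization.AtPrime p) (LocalizedModule p.primeCompl X)) :=
    inferInstanceAs (Subsingleton (LocalizedModule p.primeCompl X))
  exact V_of_subsingleton n _

theorem InC.proj [Module.Finite R X] [Module.Projective R X] : InC R X := by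
  rw [inC_iff]
  refine ⟨inferInstance, fun p _ n hn => ?_⟩
  have : Module.Projective (Localization.AtPrime p) (LocalizedModule p.primeCompl X) :=
    inferInstance
  have : Module.Finite (Localization.AtPrime p) (LocalizedModule p.primeCompl X) :=
    inferInstance
  have : Module.Free (Localization.AtPrime p) (LocalizedModule p.primeCompl X) :=
    Module.free_of_flat_of_isLocalRing
  exact V_free n _ hn

/-- Local freeness via projectivity. -/
theorem inCV_iff : InCV R I X ↔ InC R X ∧ ∀ (p : Ideal R) [p.IsPrime], ¬ I ≤ p →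
    Module.Projective (Localization.AtPrime p) (LocalizedModule p.primeCompl X) := by
  constructor
  · rintro ⟨h1, h2⟩
    refine ⟨h1, fun p _ hp => ?_⟩
    have := h2 p hp
    infer_instance
  · rintro ⟨h1, h2⟩
    refine ⟨h1, fun p _ hp => ?_⟩
    have := h2 p hp
    have := h1.fin
    exact Module.free_of_flat_of_isLocalRing

theorem InCV.retract (i : X →ₗ[R] Y) (r : Y →ₗ[R] X) (hir : r ∘ₗ i = LinearMap.id)
    (hY : InCV R I Y) : InCV R I X := by
  rw [inCV_iff] at hY ⊢
  refine ⟨hY.1.retract i r hir, fun p _ hp => ?_⟩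
  have := hY.2 p hp
  refine Module.Projective.of_split (LocalizedModule.map p.primeCompl i)
    (LocalizedModule.map p.primeCompl r) ?_
  rw [map_comp_map, hir, LocalizedModule.map_id]

theorem InCV.zero [Subsingleton X] : InCV R I X := by
  rw [inCV_iff]
  exact ⟨InC.zero, fun p _ _ => inferInstance⟩

theorem InCV.proj [Module.Finite R X] [Module.Projective R X] : InCV R I X := by
  rw [inCV_iff]
  exact ⟨InC.proj, fun p _ _ => inferInstance⟩

/-- A short exact sequence with projective quotient. -/
theorem splitting {A : Type u} [CommRing A] {X Y Z : Type u} [AddCommGroup X] [Module A X]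
    [AddCommGroup Y] [Module A Y] [AddCommGroup Z] [Module A Z] (f : X →ₗ[A] Y) (g : Y →ₗ[A] Z)
    (hf : Injective f) (hfg : Exact f g) (hg : Surjective g) [Module.Projective A Z] :
    Nonempty ((X × Z) ≃ₗ[A] Y) := by
  obtain ⟨s, hs⟩ := Module.projective_lifting_property g LinearMap.id hg
  have hs' : ∀ z, g (s z) = z := fun z => LinearMap.congr_fun hs z
  refine ⟨LinearEquiv.ofBijective (f.coprod s) ⟨?_, ?_⟩⟩
  · rw [injective_iff_map_eq_zero]
    rintro ⟨x, z⟩ h
    rw [LinearMap.coprod_apply] at h
    have h1 : z = 0 := by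
      have := congrArg g h
      rwa [map_add, hfg.apply_apply_eq_zero, hs', map_zero, zero_add] at this
    rw [h1, map_zero, add_zero] at h
    have h2 : x = 0 := hf (by rw [h, map_zero])
    rw [h1, h2]; rfl
  · intro y
    have : g (y - s (g y)) = 0 := by rw [map_sub, hs', sub_self]
    obtain ⟨x, hx⟩ := (hfg _).1 this
    exact ⟨(x, g y), by rw [LinearMap.coprod_apply, hx]; abel⟩

theorem InCV.mid (f : X →ₗ[R] Y) (g : Y →ₗ[R] Z) (hf : Injective f) (hfg : Exact f g)
    (hg : Surjective g) (hX : InCV R I X) (hZ : InCV R I Z) : InCV R I Y := by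
  rw [inCV_iff] at hX hZ ⊢
  refine ⟨hX.1.mid f g hf hfg hg hZ.1, fun p _ hp => ?_⟩
  have := hX.2 p hp
  have := hZ.2 p hp
  obtain ⟨e⟩ := splitting (LocalizedModule.map p.primeCompl f)
    (LocalizedModule.map p.primeCompl g) (LocalizedModule.map_injective _ f hf)
    (LocalizedModule.map_exact p.primeCompl f g hfg) (LocalizedModule.map_surjective _ g hg)
  exact Module.Projective.of_equiv e

theorem InCV.left (f : X →ₗ[R] Y) (g : Y →ₗ[R] Z) (hf : Injective f) (hfg : Exact f g)
    (hg : Surjective g) (hY : InCV R I Y) (hZ : InCV R I Z) : InCV R I X := by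
  rw [inCV_iff] at hY hZ ⊢
  refine ⟨hY.1.left f g hf hfg hg hZ.1, fun p _ hp => ?_⟩
  have := hY.2 p hp
  have := hZ.2 p hp
  obtain ⟨e⟩ := splitting (LocalizedModule.map p.primeCompl f)
    (LocalizedModule.map p.primeCompl g) (LocalizedModule.map_injective _ f hf)
    (LocalizedModule.map_exact p.primeCompl f g hfg) (LocalizedModule.map_surjective _ g hg)
  refine Module.Projective.of_split (e.toLinearMap ∘ₗ LinearMap.inl _ _ _)
    (LinearMap.fst _ _ _ ∘ₗ e.symm.toLinearMap) ?_
  ext x
  simp

end closure

end Pool.Agent.X86.EC
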