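import Mathlib
import Pool.Agent.X86.EC.Closure

namespace Pool.Agent.X86.EC

open CategoryTheory Function

universe u

variable {R : Type u} [CommRing R]

/-- `a` lies in the stable annihilator of `M`: multiplication by `a` on `M` factors through a
finitely generated projective module. -/
def InStAnn (M : Type u) [AddCommGroup M] [Module R M] (a : R) : Prop :=
  ∃ (P : ModuleCat.{u} R) (v : M →ₗ[R] P) (w : P →ₗ[R] M),
    Module.Finite R P ∧ Module.Projective R P ∧ ∀ m, w (v m) = a • m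

section stann

variable {M : Type u} [AddCommGroup M] [Module R M]

theorem InStAnn.mk' {P : Type u} [AddCommGroup P] [Module R P] [Module.Finite R P]
    [Module.Projective R P] {a : R} (v : M →ₗ[R] P) (w : P →ₗ[R] M)
    (h : ∀ m, w (v m) = a • m) : InStAnn M a :=
  ⟨ModuleCat.of R P, v, w, inferInstance, inferInstance, h⟩

theorem InStAnn.zero : InStAnn M (0 : R) :=
  InStAnn.mk' (P := PUnit.{u + 1}) 0 0 (fun m => by simp)

theorem InStAnn.add {a b : R} (ha : InStAnn M a) (hb : InStAnn M b) : InStAnn M (a + b) := by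
  obtain ⟨P, v, w, h1, h2, h3⟩ := ha
  obtain ⟨P', v', w', h1', h2', h3'⟩ := hb
  refine InStAnn.mk' (P := P × P') (v.prod v') (w.coprod w') fun m => ?_
  rw [LinearMap.prod_apply, LinearMap.coprod_apply]
  change w (v m) + w' (v' m) = _
  rw [h3, h3', add_smul]

theorem InStAnn.smul {a : R} (c : R) (ha : InStAnn M a) : InStAnn M (c * a) := by
  obtain ⟨P, v, w, h1, h2, h3⟩ := ha
  refine ⟨P, v, c • w, h1, h2, fun m => ?_⟩
  rw [LinearMap.smul_apply, h3, smul_smul]

/-- The stable annihilator. -/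
def stAnn (R : Type u) [CommRing R] (M : Type u) [AddCommGroup M] [Module R M] : Ideal R where
  carrier := {a | InStAnn M a}
  zero_mem' := InStAnn.zero
  add_mem' := InStAnn.add
  smul_mem' c _ h := InStAnn.smul c h

end stann

section core

variable {M P : Type u} [AddCommGroup M] [Module R M] [AddCommGroup P] [Module R P]

/-- The pullback of `π : P → M` along multiplication by `a`. -/
def pb (π : P →ₗ[R] M) (a : R) : Submodule R (P × M) where
  carrier := {x | π x.1 = a • x.2}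
  zero_mem' := by simp
  add_mem' := by
    intro x y hx hy
    change π (x.1 + y.1) = a • (x.2 + y.2)
    rw [map_add, hx, hy, smul_add]
  smul_mem' := by
    intro c x hx
    change π (c • x.1) = a • (c • x.2)
    rw [map_smul, hx, smul_comm]

theorem mem_pb {π : P →ₗ[R] M} {a : R} {x : P × M} : x ∈ pb π a ↔ π x.1 = a • x.2 := Iff.rfl

/-- `0 → ker π → pb π a → M → 0`. -/
theorem pb_exact (π : P →ₗ[R] M) (hπ : Surjective π) (a : R) :
    ∃ (f : LinearMap.ker π →ₗ[R] pb π a) (g : pb π a →ₗ[R] M), Injective f ∧ Exact f g ∧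
      Surjective g := by
  refine ⟨LinearMap.codRestrict (pb π a) (LinearMap.inl R P M ∘ₗ (LinearMap.ker π).subtype) ?_,
    LinearMap.snd R P M ∘ₗ (pb π a).subtype, ?_, ?_, ?_⟩
  · intro x
    rw [mem_pb]
    change π x.1 = a • (0 : M)
    rw [LinearMap.mem_ker.1 x.2, smul_zero]
  · intro x y h
    have := congrArg (fun z : pb π a => (z : P × M).1) h
    exact Subtype.ext this
  · rintro ⟨⟨p, m⟩, h⟩
    constructor
    · intro h0
      change m = 0 at h0
      subst h0
      rw [mem_pb] at h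
      refine ⟨⟨p, ?_⟩, ?_⟩
      · rw [LinearMap.mem_ker, h, smul_zero]
      · rfl
    · rintro ⟨x, hx⟩
      have := congrArg (fun z : pb π a => (z : P × M).2) hx
      exact this.symm
  · intro m
    obtain ⟨p, hp⟩ := hπ (a • m)
    exact ⟨⟨(p, m), hp⟩, rfl⟩

/-- `a` stably annihilates `pb π a`. -/
theorem stAnn_pb [Module.Finite R P] [Module.Projective R P] (π : P →ₗ[R] M) (a : R) :
    InStAnn (pb π a) a := by
  refine InStAnn.mk' (P := P) (LinearMap.fst R P M ∘ₗ (pb π a).subtype)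
    (LinearMap.codRestrict (pb π a) ((a • LinearMap.id).prod π) ?_) ?_
  · intro p
    rw [mem_pb]
    change π (a • p) = a • π p
    rw [map_smul]
  · rintro ⟨⟨p, m⟩, h⟩
    apply Subtype.ext
    change (a • p, π p) = (a • p, a • m)
    rw [mem_pb.1 h]

/-- The stable annihilator of `M` stably annihilates `pb π a`. -/
theorem stAnn_pb_of [Module.Finite R P] [Module.Projective R P] (π : P →ₗ[R] M)
    (hπ : Surjective π) (a b : R) (hb : InStAnn M b) : InStAnn (pb π a) b := by
  obtain ⟨P', v, w, h1, h2, h3⟩ := hb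
  obtain ⟨w', hw'⟩ := Module.projective_lifting_property π w hπ
  have hw : ∀ p, π (w' p) = w p := fun p => LinearMap.congr_fun hw' p
  refine InStAnn.mk' (P := P' × P)
    ((v ∘ₗ LinearMap.snd R P M ∘ₗ (pb π a).subtype).prod
      (LinearMap.fst R P M ∘ₗ (pb π a).subtype))
    (LinearMap.codRestrict (pb π a)
      ((a • (w' ∘ₗ LinearMap.fst R P' P) + b • LinearMap.snd R P' P
        - w' ∘ₗ v ∘ₗ π ∘ₗ LinearMap.snd R P' P).prod (w ∘ₗ LinearMap.fst R P' P)) ?_) ?_
  · rintro ⟨p', p⟩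
    rw [mem_pb]
    change π (a • w' p' + b • p - w' (v (π p))) = a • w p'
    rw [map_sub, map_add, map_smul, map_smul, hw, hw, h3]
    abel
  · rintro ⟨⟨p, m⟩, h⟩
    apply Subtype.ext
    change (a • w' (v m) + b • p - w' (v (π p)), w (v m)) = (b • p, b • m)
    rw [mem_pb] at h
    change π p = a • m at h
    rw [h3, h, map_smul, map_smul]
    congr 1
    abel

/-- `0 → pb π (a^n) → pb π (a^(n+1)) × P → pb π a → 0`. -/
theorem pb_seq (π : P →ₗ[R] M) (hπ : Surjective π) (a : R) (n : ℕ) :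
    ∃ (f : pb π (a ^ n) →ₗ[R] (pb π (a ^ (n + 1)) × P))
      (g : (pb π (a ^ (n + 1)) × P) →ₗ[R] pb π a), Injective f ∧ Exact f g ∧ Surjective g := by
  have hmem : ∀ (q : P) (m : M), (q, m) ∈ pb π (a ^ n) → (a • q, m) ∈ pb π (a ^ (n + 1)) := by
    intro q m h
    rw [mem_pb] at h ⊢
    change π q = a ^ n • m at h
    change π (a • q) = a ^ (n + 1) • m
    rw [map_smul, h, smul_smul, pow_succ']
  let f₁ : pb π (a ^ n) →ₗ[R] pb π (a ^ (n + 1)) :=
    LinearMap.codRestrict (pb π (a ^ (n + 1)))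
      ((a • (LinearMap.fst R P M ∘ₗ (pb π (a ^ n)).subtype)).prod
        (LinearMap.snd R P M ∘ₗ (pb π (a ^ n)).subtype)) (by
      rintro ⟨⟨q, m⟩, h⟩
      exact hmem q m h)
  let f : pb π (a ^ n) →ₗ[R] (pb π (a ^ (n + 1)) × P) :=
    f₁.prod (-(LinearMap.fst R P M ∘ₗ (pb π (a ^ n)).subtype))
  have hf : ∀ (q : P) (m : M) (h : (q, m) ∈ pb π (a ^ n)),
      f ⟨(q, m), h⟩ = (⟨(a • q, m), hmem q m h⟩, -q) := fun _ _ _ => rfl
  let g : (pb π (a ^ (n + 1)) × P) →ₗ[R] pb π a :=
    LinearMap.codRestrict (pb π a)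
      (((LinearMap.fst R P M ∘ₗ (pb π (a ^ (n + 1))).subtype ∘ₗ LinearMap.fst R _ P)
        + a • LinearMap.snd R (pb π (a ^ (n + 1))) P).prod
       (a ^ n • (LinearMap.snd R P M ∘ₗ (pb π (a ^ (n + 1))).subtype ∘ₗ LinearMap.fst R _ P)
        + π ∘ₗ LinearMap.snd R (pb π (a ^ (n + 1))) P)) (by
      rintro ⟨⟨⟨p, m⟩, h⟩, p'⟩
      rw [mem_pb] at h ⊢
      change π p = a ^ (n + 1) • m at h
      change π (p + a • p') = a • (a ^ n • m + π p')
      rw [map_add, map_smul, h, smul_add, smul_smul, ← pow_succ'])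
  have hg : ∀ (p : P) (m : M) (h : (p, m) ∈ pb π (a ^ (n + 1))) (p' : P),
      (g (⟨(p, m), h⟩, p') : P × M) = (p + a • p', a ^ n • m + π p') := fun _ _ _ _ => rfl
  refine ⟨f, g, ?_, ?_, ?_⟩
  · rintro ⟨⟨q, m⟩, h⟩ ⟨⟨q', m'⟩, h'⟩ heq
    rw [hf, hf, Prod.mk.injEq, Subtype.mk.injEq, Prod.mk.injEq, neg_inj] at heq
    apply Subtype.ext
    exact Prod.ext heq.2 heq.1.2
  · rintro ⟨⟨⟨p, m⟩, h⟩, p'⟩
    constructor
    · intro h0
      have h1 : (p + a • p', a ^ n • m + π p') = ((0, 0) : P × M) := by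
        rw [← hg p m h p', h0]; rfl
      rw [Prod.mk.injEq] at h1
      obtain ⟨h2, h3⟩ := h1
      have h4 : ((-p', m) : P × M) ∈ pb π (a ^ n) := by
        rw [mem_pb]
        change π (-p') = a ^ n • m
        rw [map_neg]
        exact (eq_neg_of_add_eq_zero_left h3).symm
      refine ⟨⟨(-p', m), h4⟩, ?_⟩
      rw [hf]
      refine Prod.ext (Subtype.ext (Prod.ext ?_ rfl)) (neg_neg _)
      change a • -p' = p
      rw [smul_neg]
      exact (eq_neg_of_add_eq_zero_left h2).symm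
    · rintro ⟨⟨⟨q, m'⟩, h'⟩, hq⟩
      rw [← hq]
      apply Subtype.ext
      rw [hf, hg]
      rw [mem_pb] at h'
      change π q = a ^ n • m' at h'
      change (a • q + a • -q, a ^ n • m' + π (-q)) = (0, 0)
      rw [map_neg, h', smul_neg, add_neg_cancel, add_neg_cancel]
  · rintro ⟨⟨q, y⟩, h⟩
    obtain ⟨p', hp'⟩ := hπ y
    have h1 : ((q - a • p', 0) : P × M) ∈ pb π (a ^ (n + 1)) := by
      rw [mem_pb] at h ⊢
      change π q = a • y at h
      change π (q - a • p') = a ^ (n + 1) • (0 : M)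
      rw [map_sub, map_smul, h, hp', sub_self, smul_zero]
    refine ⟨(⟨(q - a • p', 0), h1⟩, p'), ?_⟩
    apply Subtype.ext
    rw [hg, hp']
    exact Prod.ext (sub_add_cancel _ _) (by rw [smul_zero, zero_add])

/-- If `c` stably annihilates `M`, then `M` is a retract of `pb π c`. -/
theorem pb_retract (π : P →ₗ[R] M) (hπ : Surjective π) (c : R) (hc : InStAnn M c) :
    ∃ (i : M →ₗ[R] pb π c) (r : pb π c →ₗ[R] M), ∀ m, r (i m) = m := by
  obtain ⟨P', v, w, h1, h2, h3⟩ := hc
  obtain ⟨w', hw'⟩ := Module.projective_lifting_property π w hπ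
  have hw : ∀ p, π (w' p) = w p := fun p => LinearMap.congr_fun hw' p
  refine ⟨LinearMap.codRestrict (pb π c) ((w' ∘ₗ v).prod LinearMap.id) ?_,
    LinearMap.snd R P M ∘ₗ (pb π c).subtype, fun m => rfl⟩
  intro m
  rw [mem_pb]
  change π (w' (v m)) = c • m
  rw [hw, h3]

end core

end Pool.Agent.X86.EC
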