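import Mathlib
import Pool.Agent.X86.EC.Stable

namespace Pool.Agent.X86.EC

open CategoryTheory Function

universe u

variable {R : Type u} [CommRing R]

theorem exists_stAnn [IsNoetherianRing R] (M : Type u) [AddCommGroup M] [Module R M]
    [Module.Finite R M] (p : Ideal R) [p.IsPrime]
    (hp : Module.Projective (Localization.AtPrime p) (LocalizedModule p.primeCompl M)) :
    ∃ s, s ∉ p ∧ InStAnn M s := by
  obtain ⟨k, π, hπ⟩ := Module.Finite.exists_fin' R M
  obtain ⟨σ, hσ⟩ := Module.projective_lifting_property (LocalizedModule.map p.primeCompl π)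
    LinearMap.id (LocalizedModule.map_surjective _ π hπ)
  have hσ' : ∀ x, LocalizedModule.map p.primeCompl π (σ x) = x :=
    fun x => LinearMap.congr_fun hσ x
  have : Module.FinitePresentation R M := Module.finitePresentation_of_finite R M
  obtain ⟨h, s, hs⟩ := Module.FinitePresentation.exists_lift_of_isLocalizedModule p.primeCompl
    (LocalizedModule.mkLinearMap p.primeCompl (Fin k → R))
    ((σ.restrictScalars R) ∘ₗ LocalizedModule.mkLinearMap p.primeCompl M)
  have h1 : (LocalizedModule.mkLinearMap p.primeCompl M).comp (π ∘ₗ h)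
      = (LocalizedModule.mkLinearMap p.primeCompl M).comp (s • LinearMap.id) := by
    ext m
    have h2 := LinearMap.congr_fun hs m
    change LocalizedModule.mk (h m) 1 = s • σ (LocalizedModule.mk m 1) at h2
    change LocalizedModule.mk (π (h m)) 1 = LocalizedModule.mk (s • m) 1
    have h3 : LocalizedModule.map p.primeCompl π (LocalizedModule.mk (h m) 1)
        = LocalizedModule.mk (π (h m)) 1 := LocalizedModule.map_mk _ _ _ _
    rw [← h3, h2]
    have h4 : LocalizedModule.map p.primeCompl π (s • σ (LocalizedModule.mk m 1))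
        = s • LocalizedModule.map p.primeCompl π (σ (LocalizedModule.mk m 1)) := by
      change LocalizedModule.map p.primeCompl π ((s : R) • σ (LocalizedModule.mk m 1)) = _
      rw [← algebraMap_smul (Localization.AtPrime p) (s : R), map_smul, algebraMap_smul]
      rfl
    rw [h4, hσ']
    exact (map_smul (LocalizedModule.mkLinearMap p.primeCompl M) (s : R) m).symm
  obtain ⟨t, ht⟩ := Module.Finite.exists_smul_of_comp_eq_of_isLocalizedModule p.primeCompl
    (LocalizedModule.mkLinearMap p.primeCompl M) _ _ h1
  refine ⟨t * s, (t * s).2, InStAnn.mk' h ((t : R) • π) fun m => ?_⟩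
  have := LinearMap.congr_fun ht m
  change (t : R) • π (h m) = (t : R) • ((s : R) • m) at this
  rw [LinearMap.smul_apply, this, smul_smul]

theorem exists_pow_stAnn [IsNoetherianRing R] {I : Ideal R} (M : Type u) [AddCommGroup M]
    [Module R M] (hM : InCV R I M) (a : R) (ha : a ∈ I) : ∃ n : ℕ, InStAnn M (a ^ n) := by
  have hM' := inCV_iff.1 hM
  have := hM'.1.fin
  have : a ∈ (stAnn R M).radical := by
    rw [Ideal.radical_eq_sInf, Ideal.mem_sInf]
    rintro p ⟨hp1, hp2⟩
    by_contra hap
    have hI : ¬ I ≤ p := fun h => hap (h ha)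
    obtain ⟨s, hs, hs'⟩ := exists_stAnn M p (hM'.2 p hI)
    exact hs (hp1 hs')
  exact this

/-- The modules in `C(R)` that are stably annihilated by `I`. -/
def InCI (R : Type u) [CommRing R] (I : Ideal R) (M : Type u) [AddCommGroup M] [Module R M] :
    Prop := InC R M ∧ ∀ a ∈ I, InStAnn M a

theorem InCI.inCV [IsNoetherianRing R] {I : Ideal R} {M : Type u} [AddCommGroup M]
    [Module R M] (hM : InCI R I M) : InCV R I M := by
  rw [inCV_iff]
  refine ⟨hM.1, fun p _ hp => ?_⟩
  obtain ⟨a, ha, hap⟩ := SetLike.not_le_iff_exists.1 hp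
  obtain ⟨P, v, w, h1, h2, h3⟩ := hM.2 a ha
  have hunit : IsUnit (algebraMap R (Localization.AtPrime p) a) :=
    IsLocalization.map_units (Localization.AtPrime p) (⟨a, hap⟩ : p.primeCompl)
  obtain ⟨b, hb⟩ := hunit.exists_right_inv
  refine Module.Projective.of_split (LocalizedModule.map p.primeCompl v)
    (b • LocalizedModule.map p.primeCompl w) ?_
  rw [LinearMap.smul_comp, map_comp_map]
  have : w ∘ₗ v = a • LinearMap.id := by
    ext m; exact h3 m
  rw [this, map_smul, LocalizedModule.map_id]
  ext x
  rw [LinearMap.smul_apply, LinearMap.smul_apply, LinearMap.id_apply,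
    ← algebraMap_smul (Localization.AtPrime p) a x, smul_smul, mul_comm, hb, one_smul]

/-- A full subcategory of `mod R` (given by the class `Y` of its objects) that is closed under
isomorphisms and stable under finite direct sums, direct summands and extensions. -/
structure ExtStable (Y : ModuleCat.{u} R → Prop) : Prop where
  fin : ∀ M, Y M → Module.Finite R M
  iso : ∀ M N : ModuleCat.{u} R, Nonempty (M ≃ₗ[R] N) → Y M → Y N
  zero : ∀ M : ModuleCat.{u} R, Subsingleton M → Y M
  sum : ∀ M N : ModuleCat.{u} R, Y M → Y N → Y (ModuleCat.of R (M × N))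
  summand : ∀ M N : ModuleCat.{u} R, Y (ModuleCat.of R (M × N)) → Y M
  ext : ∀ (X Z W : ModuleCat.{u} R) (f : X →ₗ[R] Z) (g : Z →ₗ[R] W), Injective f →
    Exact f g → Surjective g → Y X → Y W → Y Z

theorem ExtStable.retract {Y : ModuleCat.{u} R → Prop} (hY : ExtStable Y) {M N : Type u}
    [AddCommGroup M] [Module R M] [AddCommGroup N] [Module R N] (i : M →ₗ[R] N) (r : N →ₗ[R] M)
    (hir : ∀ m, r (i m) = m) (hN : Y (ModuleCat.of R N)) : Y (ModuleCat.of R M) := by
  let e : N ≃ₗ[R] (M × LinearMap.ker r) :=
    { toFun := fun n => (r n, ⟨n - i (r n), by rw [LinearMap.mem_ker, map_sub, hir, sub_self]⟩)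
      map_add' := by
        intro x y
        refine Prod.ext (map_add r x y) (Subtype.ext ?_)
        change x + y - i (r (x + y)) = (x - i (r x)) + (y - i (r y))
        rw [map_add, map_add]; abel
      map_smul' := by
        intro c x
        refine Prod.ext (map_smul r c x) (Subtype.ext ?_)
        change c • x - i (r (c • x)) = c • (x - i (r x))
        rw [map_smul, map_smul, smul_sub]
      invFun := fun x => i x.1 + x.2
      left_inv := by
        intro n
        change i (r n) + (n - i (r n)) = n
        abel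
      right_inv := by
        rintro ⟨m, ⟨k, hk⟩⟩
        have hk' : r k = 0 := hk
        refine Prod.ext ?_ (Subtype.ext ?_)
        · change r (i m + k) = m
          rw [map_add, hir, hk', add_zero]
        · change i m + k - i (r (i m + k)) = k
          rw [map_add, hir, hk', add_zero]; abel }
  exact hY.summand (ModuleCat.of R M) (ModuleCat.of R (LinearMap.ker r))
    (hY.iso (ModuleCat.of R N) _ ⟨e⟩ hN)

/-- `InCV` is stable. -/
theorem extStable_inCV [IsNoetherianRing R] (I : Ideal R) :
    ExtStable (fun M : ModuleCat.{u} R => InCV R I M) where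
  fin M h := h.fin
  iso M N e h := by
    obtain ⟨e⟩ := e
    exact h.retract e.symm.toLinearMap e.toLinearMap (by ext x; simp)
  zero M h := InCV.zero
  sum M N hM hN := InCV.mid (LinearMap.inl R M N) (LinearMap.snd R M N)
    LinearMap.inl_injective .inl_snd LinearMap.snd_surjective hM hN
  summand M N h := InCV.retract (LinearMap.inl R M N) (LinearMap.fst R M N) (by ext x; simp) h
  ext X Z W f g hf hfg hg hX hW := hX.mid f g hf hfg hg hW

/-- The key step. -/
theorem key_step [IsNoetherianRing R] {I : Ideal R} {Y : ModuleCat.{u} R → Prop}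
    (hY : ExtStable Y) (hYI : ∀ N : ModuleCat.{u} R, InCI R I N → Y N) (S : Set R) (a : R)
    (ha : a ∈ I)
    (hQ : ∀ N : ModuleCat.{u} R, InCV R I N → (∀ s ∈ S, InStAnn N s) → InStAnn N a → Y N)
    (M : ModuleCat.{u} R) (hM : InCV R I M) (hS : ∀ s ∈ S, InStAnn M s) : Y M := by
  have := hM.fin
  obtain ⟨k, π, hπ⟩ := Module.Finite.exists_fin' R M
  -- we need a free module in `Type u`
  have hP : InCV R I (Fin k → R) := InCV.proj
  have hYP : Y (ModuleCat.of R (Fin k → R)) := by
    apply hYI
    refine ⟨InC.proj, fun a _ => ?_⟩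
    exact InStAnn.mk' (P := Fin k → R) LinearMap.id (a • LinearMap.id) (fun m => rfl)
  have hker : InCV R I (LinearMap.ker π) :=
    InCV.left (LinearMap.ker π).subtype π (Submodule.subtype_injective _)
      (LinearMap.exact_subtype_ker_map π) hπ hP hM
  have hpb : ∀ c, InCV R I (pb π c) := by
    intro c
    obtain ⟨f, g, h1, h2, h3⟩ := pb_exact π hπ c
    exact InCV.mid f g h1 h2 h3 hker hM
  have hYa : Y (ModuleCat.of R (pb π a)) := by
    apply hQ _ (hpb a)
    · intro s hs
      exact stAnn_pb_of π hπ a s (hS s hs)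
    · exact stAnn_pb π a
  have hYn : ∀ n : ℕ, Y (ModuleCat.of R (pb π (a ^ n))) := by
    intro n
    induction n with
    | zero =>
      refine hY.retract (N := Fin k → R) (LinearMap.fst R _ M ∘ₗ (pb π (a ^ 0)).subtype)
        (LinearMap.codRestrict (pb π (a ^ 0)) (LinearMap.id.prod π) ?_) ?_ hYP
      · intro p
        rw [mem_pb]
        change π p = a ^ 0 • π p
        rw [pow_zero, one_smul]
      · rintro ⟨⟨p, m⟩, h⟩
        apply Subtype.ext
        rw [mem_pb] at h
        change π p = a ^ 0 • m at h
        rw [pow_zero, one_smul] at h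
        exact Prod.ext rfl h
    | succ n ih =>
      obtain ⟨f, g, h1, h2, h3⟩ := pb_seq π hπ a n
      exact hY.summand (ModuleCat.of R (pb π (a ^ (n + 1)))) (ModuleCat.of R (Fin k → R))
        (hY.ext (ModuleCat.of R (pb π (a ^ n)))
          (ModuleCat.of R (pb π (a ^ (n + 1)) × (Fin k → R))) (ModuleCat.of R (pb π a))
          f g h1 h2 h3 ih hYa)
  obtain ⟨n, hn⟩ := exists_pow_stAnn M hM a ha
  obtain ⟨i, r, hir⟩ := pb_retract π hπ (a ^ n) hn
  exact hY.retract i r hir (hYn n)

theorem main [IsNoetherianRing R] {I : Ideal R} {Y : ModuleCat.{u} R → Prop}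
    (hY : ExtStable Y) (hYI : ∀ N : ModuleCat.{u} R, InCI R I N → Y N)
    (M : ModuleCat.{u} R) (hM : InCV R I M) : Y M := by
  classical
  obtain ⟨G, hG⟩ : I.FG := IsNoetherian.noetherian I
  have hGI : ∀ g ∈ G, g ∈ I := fun g hg => hG ▸ Submodule.subset_span hg
  have key : ∀ T : Finset R, T ⊆ G → ∀ N : ModuleCat.{u} R, InCV R I N →
      (∀ s ∈ G \ T, InStAnn N s) → Y N := by
    intro T
    induction T using Finset.induction_on with
    | empty =>
      intro _ N hN hs
      apply hYI
      refine ⟨hN.toInC, fun a ha => ?_⟩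
      have hle : I ≤ stAnn R N := by
        rw [← hG, Submodule.span_le]
        intro g hg
        exact hs g (by simpa using hg)
      exact hle ha
    | insert a T haT ih =>
      intro hTG N hN hs
      refine key_step hY hYI {s | s ∈ G \ insert a T} a
        (hGI a (hTG (Finset.mem_insert_self a T))) ?_ N hN (fun s hs' => hs s hs')
      intro N' hN' h1 h2
      refine ih ((Finset.subset_insert a T).trans hTG) N' hN' fun s hs' => ?_
      rw [Finset.mem_sdiff] at hs'
      by_cases hsa : s = a
      · rw [hsa]; exact h2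
      · apply h1
        change s ∈ G \ insert a T
        rw [Finset.mem_sdiff, Finset.mem_insert]
        exact ⟨hs'.1, fun h => h.elim hsa hs'.2⟩
  exact key G subset_rfl M hM (fun s hs => by simp at hs)

end Pool.Agent.X86.EC
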